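import Pool.Agent.H91.FR.SubA
import Pool.Agent.H31.W1.H91.D2.TlcA

/-!
# Subclasses

`FreeAt.sub`, `FreeNx.sub`, `TlAt.sub`: the properties pass to subclasses. `FreeAt.le`: a larger
error. `chg_vs`: a greedy order which is exact at the windows of a set is a chain there (`ChG`).
-/

set_option autoImplicit false

namespace Pool.W.LA91

open Pool.LA91

open Finset Real MvPolynomial
open Pool.Agent.H49.Ent Pool.Agent.H32.Dense Pool.STK Pool.KA Pool.KSAT Pool.K2S Pool.PB Pool.GEN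
open Pool.S6C Pool.RCD
open Pool.GRW (VExa)

variable {m n : ℕ} {α γ : ∀ J : ℕ, Pool.KA.Fam m J → Type}
  {f : ∀ (J : ℕ) (F : Pool.KA.Fam m J), F.Ω → α J F} {y : ∀ (J : ℕ) (F : Pool.KA.Fam m J), F.Ω → γ J F}
  {S S' : Pool.PB.PCl m} {c : ℕ → Fin m} {d : ℕ} {sn : ℕ → ℝ → ℝ} {G : Set ℝ} {g : ℝ} {C : ℕ} {σ : ℚ}
  {κ κ' : ℝ} {k : ℕ}


theorem TlAt.sub (hs : ∀ (τ : ℝ) (J : ℕ) (F : Pool.KA.Fam m J) (A : F.Ω → Prop),
    S'.St τ J F A → S.St τ J F A) (h : Pool.W.LA91.TlAt S c d sn G g C σ κ k) :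
    Pool.W.LA91.TlAt S' c d sn G g C σ κ k := by
  intro P₁ P₂ b w a o a0 a1 a2 a3 a4 a5 a6 a7
  obtain ⟨k₂, hk₂, h1⟩ := h P₁ P₂ b w a o a0 a1 a2 a3 a4 a5 a6 a7
  refine ⟨k₂, hk₂, fun D => ?_⟩
  obtain ⟨C₁, h2⟩ := h1 D
  exact ⟨C₁, h2.sub hs⟩


end Pool.W.LA91
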