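import Pool.Agent.H91.FR.QpG
import Pool.Agent.H31.W1.H91.FR.SubA

/-!
# The free velocities and the entropy fields as a property of the windows

`fa_tl_le`: one subclass for `FreeAt`, `FreeNx` and `TlAt` for all lengths of the chain. `FaQ`: the
property of a window, for the joints of the class theorems; `aePG_fa`: it holds at almost every
window, in a subclass. `sumQ`, `aePG_sum`: two properties at once.
-/

set_option autoImplicit false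

namespace Pool.W.LA91

open Pool.LA91

open Finset Real MvPolynomial
open Pool.Agent.H49.Ent Pool.Agent.H32.Dense Pool.STK Pool.KA Pool.KSAT Pool.K2S Pool.PB Pool.GEN
open Pool.S6C Pool.RCD Pool.PKG Pool.CHT Pool.GRW
open Pool.TOP (TopS)


/-- **The free velocities and the entropy fields** at a window `x`. The parameters: the length of
the chain, the constant of the windows, the step of the digits, the error. -/
structure FaQ {n : ℕ} (p : ℕ × ℕ × ℚ × ℚ) (k₀ : ℕ) (S : Pool.PB.PCl n)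
    (P : List (Fin n) × Fin n → ℝ → ℝ → ℝ) (θ : ℝ) (c : ℕ → Fin n) (Pt : ℝ → ℝ → ℝ)
    (r : ℝ → ℝ) (L T : ℕ → ℝ → ℝ → ℝ) (κ : ℕ → Pool.PKG.Kg) (G : Set ℝ) (x : ℝ) : Prop where
  /-- The numbers of the records exist. -/
  rn : ∃ η : ℚ → ℝ, ∀ w : ℚ, Pool.RCD.RNum S (fun J F => Pool.PB.ptr F J) (Pool.RCD.vg (w : ℝ)) (η w)
  /-- The chains at the windows of `G`. -/
  ch : ∀ d < n, Pool.LA91.ChG S c d (fun l w => L l w w) G
  free : p.1 < n → (∀ l < p.1, κ l = .one) → 0 < p.2.2.1 → p.2.2.1 ≤ 1 → 0 < p.2.2.2 →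
    ∀ k ≥ k₀, Pool.LA91.FreeAt S (fun J F => Pool.PB.ptr F J) (fun _ F => F.W) c p.1 (fun l w => L l w w) G x
      p.2.1 p.2.2.1 p.2.2.2 k
  next : p.1 < n → (∀ l < p.1, κ l = .one) → 0 < p.2.2.1 → p.2.2.1 ≤ 1 → 0 < p.2.2.2 →
    ∀ k ≥ k₀, Pool.LA91.FreeNx S (fun J F => Pool.PB.ptr F J) (fun _ F => F.W) c p.1 (fun l w => L l w w) G x
      p.2.1 p.2.2.1 p.2.2.2 k
  tl : p.1 < n → (∀ l < p.1, κ l = .one) → 0 < p.2.2.1 → p.2.2.1 ≤ 1 → 0 < p.2.2.2 →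
    ∀ k ≥ k₀, Pool.W.LA91.TlAt S c p.1 (fun l w => L l w w) G x p.2.1 p.2.2.1 p.2.2.2 k


/-- The property passes to subclasses. -/
theorem FaQ.sub {n : ℕ} {p : ℕ × ℕ × ℚ × ℚ} {k₀ : ℕ} {S S' : Pool.PB.PCl n}
    {P : List (Fin n) × Fin n → ℝ → ℝ → ℝ} {θ : ℝ} {c : ℕ → Fin n} {Pt : ℝ → ℝ → ℝ}
    {r : ℝ → ℝ} {L T : ℕ → ℝ → ℝ → ℝ} {κ : ℕ → Pool.PKG.Kg} {G : Set ℝ} {x : ℝ}
    (hs : ∀ (τ : ℝ) (J : ℕ) (F : Pool.KA.Fam n J) (A : F.Ω → Prop), S'.St τ J F A → S.St τ J F A)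
    (h : Pool.W.LA91.FaQ p k₀ S P θ c Pt r L T κ G x) : Pool.W.LA91.FaQ p k₀ S' P θ c Pt r L T κ G x where
  rn := by
    obtain ⟨η, hη⟩ := h.rn
    exact ⟨η, fun w => (hη w).sub hs⟩
  ch := fun d hd => (h.ch d hd).sub hs
  free := fun e1 e2 e3 e4 e5 k hk => (h.free e1 e2 e3 e4 e5 k hk).sub hs
  next := fun e1 e2 e3 e4 e5 k hk => (h.next e1 e2 e3 e4 e5 k hk).sub hs
  tl := fun e1 e2 e3 e4 e5 k hk => (h.tl e1 e2 e3 e4 e5 k hk).sub hs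


theorem her_fa (n : ℕ) : Pool.LA91.HerQ (Pool.W.LA91.FaQ : Pool.PKG.PropG n (ℕ × ℕ × ℚ × ℚ)) :=
  fun _ _ _ _ _ _ _ _ _ _ _ _ _ _ hs h => h.sub hs


end Pool.W.LA91
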